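import Pool.Agent.R431.SG.DensG
import Pool.Agent.N666.TM.Crit
import Pool.Agent.N666.TM.Diag

/-!
# Thin sequences of tuples of algebraic integers: the density principle

The local analysis is that of `Pool.Agent.R431.SG`; the sieve for thin sequences is that of
`Pool.Agent.N666.TM`.
-/

set_option autoImplicit false
set_option linter.all false

open scoped Classical

namespace Pool.Agent.N323.TH

open Polynomial NumberField Pool.Agent.R431.SG
open Pool.Agent.N666.TM (NullIn Well crit dens dens_nonneg diag fl fl_well)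
open Pool.Agent.N666.VE (primes)

section nulls

lemma nullIn_mono {S : ℕ → Finset ℕ} {E E' : Set ℕ} (h : NullIn S E) (hs : E' ⊆ E) :
    NullIn S E' := by
  intro ε hε
  obtain ⟨N₀, h0⟩ := h ε hε
  refine ⟨N₀, fun N hN => le_trans ?_ (h0 N hN)⟩
  have h1 : {t : ℕ | t ∈ S N ∧ t ∈ E'}.ncard ≤ {t : ℕ | t ∈ S N ∧ t ∈ E}.ncard :=
    Set.ncard_le_ncard (fun t ht => ⟨ht.1, hs ht.2⟩)
      ((S N).finite_toSet.subset fun t ht => ht.1)
  exact_mod_cast h1

lemma nullIn_empty (S : ℕ → Finset ℕ) : NullIn S ∅ := by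
  intro ε hε
  refine ⟨0, fun N _ => ?_⟩
  have h1 : {t : ℕ | t ∈ S N ∧ t ∈ (∅ : Set ℕ)} = ∅ := by
    ext t
    simp
  rw [h1, Set.ncard_empty, Nat.cast_zero]
  positivity

lemma nullIn_union {S : ℕ → Finset ℕ} {E E' : Set ℕ} (h : NullIn S E) (h' : NullIn S E') :
    NullIn S (E ∪ E') := by
  intro ε hε
  obtain ⟨N₁, h1⟩ := h (ε / 2) (by positivity)
  obtain ⟨N₂, h2⟩ := h' (ε / 2) (by positivity)
  refine ⟨max N₁ N₂, fun N hN => ?_⟩
  have a1 := h1 N (le_trans (le_max_left _ _) hN)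
  have a2 := h2 N (le_trans (le_max_right _ _) hN)
  have a3 : {t | t ∈ S N ∧ t ∈ E ∪ E'} ⊆ {t | t ∈ S N ∧ t ∈ E} ∪ {t | t ∈ S N ∧ t ∈ E'} := by
    rintro t ⟨ht, ht' | ht'⟩
    · exact Or.inl ⟨ht, ht'⟩
    · exact Or.inr ⟨ht, ht'⟩
  have a4 : {t | t ∈ S N ∧ t ∈ E ∪ E'}.ncard ≤
      ({t | t ∈ S N ∧ t ∈ E} ∪ {t | t ∈ S N ∧ t ∈ E'}).ncard :=
    Set.ncard_le_ncard a3 ((S N).finite_toSet.subset (by
      rintro t (ht | ht)
      · exact ht.1
      · exact ht.1))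
  have a5 := a4.trans (Set.ncard_union_le _ _)
  have a6 : ({t | t ∈ S N ∧ t ∈ E ∪ E'}.ncard : ℝ) ≤
      ({t | t ∈ S N ∧ t ∈ E}.ncard : ℝ) + ({t | t ∈ S N ∧ t ∈ E'}.ncard : ℝ) := by
    exact_mod_cast a5
  linarith

/-- density zero in the integers and in the primes -/
def Null (E : Set ℕ) : Prop :=
  NullIn (fun N => Finset.Ioc N (2 * N)) E ∧ NullIn primes E

lemma Null.mono {E E' : Set ℕ} (h : Null E) (hs : E' ⊆ E) : Null E' :=
  ⟨nullIn_mono h.1 hs, nullIn_mono h.2 hs⟩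

lemma null_empty : Null ∅ := ⟨nullIn_empty _, nullIn_empty _⟩

lemma Null.union {E E' : Set ℕ} (h : Null E) (h' : Null E') : Null (E ∪ E') :=
  ⟨nullIn_union h.1 h'.1, nullIn_union h.2 h'.2⟩

lemma null_biUnion {α : Type} (s : Finset α) (Z : α → Set ℕ) (h : ∀ i ∈ s, Null (Z i)) :
    Null (⋃ i ∈ s, Z i) := by
  induction s using Finset.induction_on with
  | empty => simpa using null_empty
  | insert a s ha ih =>
    rw [Finset.set_biUnion_insert]
    exact (h a (Finset.mem_insert_self _ _)).union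
      (ih fun i hi => h i (Finset.mem_insert_of_mem hi))

/-- the diagonal argument for countably many null sets -/
theorem diagC {α : Type} [Countable α] (Z : α → Set ℕ) (hZ : ∀ i, Null (Z i)) :
    ∃ E, Null E ∧ ∀ i, (Z i \ E).Finite := by
  rcases isEmpty_or_nonempty α with hα | hα
  · exact ⟨∅, null_empty, fun i => (hα.false i).elim⟩
  obtain ⟨f, hf⟩ := exists_surjective_nat α
  let W : ℕ → Set ℕ := fun k => ⋃ j ∈ Finset.range (k + 1), Z (f j)
  have hW : ∀ k, Null (W k) := fun k => null_biUnion _ _ fun j _ => hZ (f j)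
  have hmono : Monotone W := by
    intro k k' hk t ht
    simp only [W, Set.mem_iUnion, Finset.mem_range, exists_prop] at ht ⊢
    obtain ⟨j, hj, h⟩ := ht
    exact ⟨j, by omega, h⟩
  obtain ⟨E, h1, h2, h3⟩ := diag hmono (S₁ := fun N => Finset.Ioc N (2 * N)) (S₂ := primes)
    (fun N => Finset.Subset.refl _) (fun N => Finset.filter_subset _ _)
    (fun k => (hW k).1) (fun k => (hW k).2)
  refine ⟨E, ⟨h1, h2⟩, fun i => ?_⟩
  obtain ⟨j, rfl⟩ := hf i
  refine (h3 j).subset ?_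
  rintro t ⟨ht, ht'⟩
  refine ⟨?_, ht'⟩
  simp only [W, Set.mem_iUnion, Finset.mem_range, exists_prop]
  exact ⟨j, by omega, ht⟩

end nulls

section density

variable {k : Type} [Field k] [NumberField k] {J : Type} [Fintype J] (B : Module.Basis J ℤ (𝓞 k))
  {I : Type} [Fintype I]

/-- the vector of algebraic integers with given coordinates -/
noncomputable def cv (y : I × J → ℤ) (i : I) : 𝓞 k := ∑ j, y (i, j) • B j

lemma repr_cv (y : I × J → ℤ) (i : I) (j : J) : B.repr (cv B y i) j = y (i, j) := by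
  unfold cv
  rw [B.repr_sum_self]

theorem dens_nullIn {S : ℕ → Finset ℕ} {x : ℕ → I × J → ℤ} {κ : ℝ} (hκ : 0 < κ)
    (hw : ∃ N₀ : ℕ, ∀ N : ℕ, N₀ ≤ N → ∀ H : ℕ, (H : ℝ) ≤ (N : ℝ) ^ κ → Well (S N) x H)
    {k' : Type} [Field k'] [NumberField k'] (ι : 𝓞 k →+* 𝓞 k') {δ : ℝ}
    (hδ0 : 0 < δ) (p0 : ℕ)
    (Obs : ∀ (p : ℕ) [Fact p.Prime], (𝓞 k' →+* ℤ_[p]) → Set (I → ZMod p))
    (hc : ∀ (p : ℕ) [Fact p.Prime] (σ : 𝓞 k' →+* ℤ_[p]), p0 ≤ p →
      δ * (p : ℝ) ^ Fintype.card I ≤ ((Obs p σ).ncard : ℝ)) :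
    NullIn S {n | NoObs ι p0 Obs (cv B (x n))} := by
  intro ε hε
  set good : ℕ → Prop := fun p => p0 ≤ p ∧ ∃ h : Fact p.Prime, Nonempty (𝓞 k' →+* ℤ_[p])
    with hgood
  let Ω : (p : ℕ) → Set (I × J → ZMod p) := fun p =>
    {y | ∃ (h : Fact p.Prime) (σ : 𝓞 k' →+* ℤ_[p]), rd B (σ.comp ι) I y ∈ Obs p σ}
  have hΩ : ∀ p, good p → δ ≤ dens (Ω p) := by
    intro p hp
    obtain ⟨h1, h2, ⟨σ⟩⟩ := hp
    have h3 := hc p σ h1
    have h4 := proportion (rd B (σ.comp ι) I) (rd_surj B (σ.comp ι)) (Obs p σ) (δ := δ)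
      (Ω := Ω p) (by
      rw [Fintype.card_fun, ZMod.card, Nat.cast_pow]
      exact h3) (fun x hx => ⟨h2, σ, hx⟩)
    rw [Fintype.card_fun, ZMod.card, Nat.cast_pow] at h4
    have hp0 : (0 : ℝ) < p := by exact_mod_cast h2.out.pos
    unfold dens
    rw [le_div_iff₀ (by positivity)]
    exact h4
  have hdiv : ¬ Summable (fun p : ℕ => if p.Prime then (if good p then δ else 0) else 0) := by
    intro hs
    have h1 := hs.tendsto_atTop_zero
    obtain ⟨M, hM⟩ := Filter.eventually_atTop.1 (h1.eventually_lt_const hδ0)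
    obtain ⟨p, hp, h2, h3⟩ := exists_emb k' (M + p0)
    have h4 := hM p (by omega)
    have h5 : good p := ⟨by omega, hp, h3⟩
    rw [if_pos hp.out, if_pos h5] at h4
    exact lt_irrefl _ h4
  obtain ⟨T', N₀, h⟩ := crit hκ hw (fun p => p) (fun p hp => hp.one_lt.le)
    (fun p p' hp hp' hne => (Nat.coprime_primes hp hp').2 hne) Ω p0
    (fun p => if good p then δ else 0) (fun p => by
      show 0 ≤ (if good p then δ else 0)
      split_ifs <;> linarith) hdiv (by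
      intro p hp hlt
      show (if good p then δ else 0) ≤ _
      split_ifs with hg
      · exact hΩ p hg
      · exact dens_nonneg _) ε hε
  refine ⟨N₀, fun N hN => le_trans ?_ (h N hN)⟩
  have h1 : {t : ℕ | t ∈ S N ∧ t ∈ {n | NoObs ι p0 Obs (cv B (x n))}}.ncard ≤
      ((S N).filter fun n => ∀ p, p.Prime → p0 < p → p ≤ T' →
        Pool.Agent.Y722.HS.red p (x n) ∉ Ω p).card := by
    rw [← Set.ncard_coe_finset]
    refine Set.ncard_le_ncard ?_ (Finset.finite_toSet _)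
    rintro t ⟨ht, hno⟩
    rw [Finset.mem_coe, Finset.mem_filter]
    refine ⟨ht, fun p hp hlt _ => ?_⟩
    rintro ⟨h2, σ, hσ⟩
    have h5 := rd_int B (σ.comp ι) (cv B (x t))
    have h6 : (fun q : I × J => ((B.repr (cv B (x t) q.1) q.2 : ℤ) : ZMod p)) =
        Pool.Agent.Y722.HS.red p (x t) := by
      funext q
      rw [repr_cv]
      rfl
    rw [h6] at h5
    rw [h5] at hσ
    exact hno p σ hlt.le hσ
  exact_mod_cast h1

/-- **The density principle for thin sequences.** -/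
theorem dens_null [Nonempty I] {F : I × J → Finset ℝ} {a : I × J → ℝ → ℝ} {c : I × J → ℝ}
    (h : ∀ i, c i ∈ F i ∧ (∀ t ∈ F i, t ≤ c i) ∧ 0 < c i ∧ (∀ m : ℕ, c i ≠ m) ∧ 0 < a i (c i))
    (hc : Function.Injective c) {k' : Type} [Field k'] [NumberField k'] (ι : 𝓞 k →+* 𝓞 k')
    {δ : ℝ} (hδ0 : 0 < δ) (p0 : ℕ)
    (Obs : ∀ (p : ℕ) [Fact p.Prime], (𝓞 k' →+* ℤ_[p]) → Set (I → ZMod p))
    (hob : ∀ (p : ℕ) [Fact p.Prime] (σ : 𝓞 k' →+* ℤ_[p]), p0 ≤ p →
      δ * (p : ℝ) ^ Fintype.card I ≤ ((Obs p σ).ncard : ℝ)) :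
    Null {n | NoObs ι p0 Obs (cv B (fl F a n))} := by
  haveI : Nonempty J := B.index_nonempty
  obtain ⟨⟨κ₁, hκ₁, g₁⟩, ⟨κ₂, hκ₂, g₂⟩⟩ := fl_well h hc
  exact ⟨dens_nullIn B hκ₁ g₁ ι hδ0 p0 Obs hob, dens_nullIn B hκ₂ g₂ ι hδ0 p0 Obs hob⟩

end density

end Pool.Agent.N323.TH
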