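import Pool.Agent.N323.TH.Dens

/-!
# One null set for all number fields

The exceptional sets depend only on the structure constants of the integral basis.
-/

set_option autoImplicit false
set_option linter.all false

open scoped Classical

namespace Pool.Agent.N323.TH

open Polynomial NumberField Pool.Agent.R431.SG
open Pool.Agent.N666.TM (NullIn fl)

/-- structure constants -/
abbrev Tab (r : ℕ) : Type := (Fin r → Fin r → Fin r → ℤ) × (Fin r → ℤ)

variable {k : Type} [Field k] [NumberField k] {k' : Type} [Field k'] [NumberField k'] {r : ℕ}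

/-- the structure constants of an integral basis -/
noncomputable def tab (B : Module.Basis (Fin r) ℤ (𝓞 k)) : Tab r :=
  (fun i j l => B.repr (B i * B j) l, fun l => B.repr 1 l)

theorem exists_iso (B : Module.Basis (Fin r) ℤ (𝓞 k)) (B' : Module.Basis (Fin r) ℤ (𝓞 k'))
    (h : tab B = tab B') : ∃ φ : 𝓞 k ≃+* 𝓞 k', ∀ j, φ (B j) = B' j := by
  let L : 𝓞 k ≃ₗ[ℤ] 𝓞 k' := B.equiv B' (Equiv.refl _)
  have hL : ∀ j, L (B j) = B' j := fun j => by
    simp only [L, Module.Basis.equiv_apply, Equiv.refl_apply]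
  have h1 : ∀ i j l, B.repr (B i * B j) l = B'.repr (B' i * B' j) l := fun i j l => by
    have := congrArg Prod.fst h
    exact congrFun (congrFun (congrFun this i) j) l
  have h2 : ∀ l, B.repr 1 l = B'.repr 1 l := fun l => by
    have := congrArg Prod.snd h
    exact congrFun this l
  have hsum : ∀ x, L x = ∑ l, B.repr x l • B' l := by
    intro x
    conv_lhs => rw [← B.sum_repr x, map_sum]
    refine Finset.sum_congr rfl fun l _ => ?_
    rw [map_zsmul, hL]
  have hmul : ∀ x y, L (x * y) = L x * L y := by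
    have hb : ∀ i j, L (B i * B j) = L (B i) * L (B j) := by
      intro i j
      rw [hsum, hL, hL]
      conv_rhs => rw [← B'.sum_repr (B' i * B' j)]
      refine Finset.sum_congr rfl fun l _ => ?_
      rw [h1]
    intro x y
    conv_lhs => rw [← B.sum_repr x, ← B.sum_repr y]
    conv_rhs => rw [← B.sum_repr x, ← B.sum_repr y]
    rw [Finset.sum_mul_sum, map_sum, map_sum, map_sum, Finset.sum_mul_sum]
    refine Finset.sum_congr rfl fun i _ => ?_
    rw [map_sum]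
    refine Finset.sum_congr rfl fun j _ => ?_
    rw [smul_mul_smul_comm, map_zsmul, map_zsmul, map_zsmul, hb, smul_mul_smul_comm]
  refine ⟨{ L.toEquiv with map_mul' := hmul, map_add' := fun x y => L.map_add x y }, hL⟩

/-- polynomials with given coordinates -/
noncomputable def pf (B : Module.Basis (Fin r) ℤ (𝓞 k)) (y : Σ d : ℕ, (Fin d → Fin r → ℤ)) :
    (𝓞 k)[X] :=
  ∑ t : Fin y.1, C (∑ j, y.2 t j • B j) * X ^ (t : ℕ)

lemma exists_pf (B : Module.Basis (Fin r) ℤ (𝓞 k)) (f : (𝓞 k)[X]) : ∃ y, pf B y = f := by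
  refine ⟨⟨f.natDegree + 1, fun t j => B.repr (f.coeff t) j⟩, ?_⟩
  unfold pf
  conv_rhs => rw [f.as_sum_range_C_mul_X_pow]
  rw [← Fin.sum_univ_eq_sum_range (fun t => C (f.coeff t) * X ^ t) (f.natDegree + 1)]
  refine Finset.sum_congr rfl fun t _ => ?_
  rw [B.sum_repr]

lemma pf_map (B : Module.Basis (Fin r) ℤ (𝓞 k)) (B' : Module.Basis (Fin r) ℤ (𝓞 k'))
    (φ : 𝓞 k ≃+* 𝓞 k') (hφ : ∀ j, φ (B j) = B' j) (y : Σ d : ℕ, (Fin d → Fin r → ℤ)) :
    (pf B y).map (φ : 𝓞 k →+* 𝓞 k') = pf B' y := by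
  unfold pf
  rw [Polynomial.map_sum]
  refine Finset.sum_congr rfl fun t _ => ?_
  rw [Polynomial.map_mul, Polynomial.map_pow, map_X, map_C, map_sum]
  congr 3
  funext j
  rw [map_zsmul]
  congr 1
  exact hφ j

lemma cv_map (B : Module.Basis (Fin r) ℤ (𝓞 k)) (B' : Module.Basis (Fin r) ℤ (𝓞 k'))
    (φ : 𝓞 k ≃+* 𝓞 k') (hφ : ∀ j, φ (B j) = B' j) {I : Type} (x : I × Fin r → ℤ) (i : I) :
    φ (cv B x i) = cv B' x i := by
  unfold cv
  rw [map_sum]
  refine Finset.sum_congr rfl fun t _ => ?_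
  rw [map_zsmul, hφ]

/-- the set of the integers without an obstruction -/
def Bad (B : Module.Basis (Fin r) ℤ (𝓞 k)) (f : (𝓞 k)[X]) {I : Type} (x : ℕ → I × Fin r → ℤ)
    (Ob : ∀ (p : ℕ) [Fact p.Prime], (ZMod p)[X] → Set (I → ZMod p)) : Set ℕ :=
  {m | ∀ (p : ℕ) [Fact p.Prime] (σ : 𝓞 k →+* ℤ_[p]),
    (fun i => red σ (cv B (x m) i)) ∉ Ob p (f.map (red σ))}

lemma bad_sub (B : Module.Basis (Fin r) ℤ (𝓞 k)) (B' : Module.Basis (Fin r) ℤ (𝓞 k'))
    (h : tab B = tab B') (y : Σ d : ℕ, (Fin d → Fin r → ℤ)) {I : Type} (x : ℕ → I × Fin r → ℤ)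
    (Ob : ∀ (p : ℕ) [Fact p.Prime], (ZMod p)[X] → Set (I → ZMod p)) :
    Bad B (pf B y) x Ob ⊆ Bad B' (pf B' y) x Ob := by
  obtain ⟨φ, hφ⟩ := exists_iso B B' h
  intro m hm p _ σ
  have h1 := hm p (σ.comp (φ : 𝓞 k →+* 𝓞 k'))
  have h2 : red (σ.comp (φ : 𝓞 k →+* 𝓞 k')) = (red σ).comp (φ : 𝓞 k →+* 𝓞 k') := rfl
  rw [h2, ← Polynomial.map_map, pf_map B B' φ hφ] at h1
  have h3 : (fun i => red σ (cv B' (x m) i)) =
      fun i => ((red σ).comp (φ : 𝓞 k →+* 𝓞 k')) (cv B (x m) i) := by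
    funext i
    show red σ (cv B' (x m) i) = red σ (φ (cv B (x m) i))
    rw [cv_map B B' φ hφ]
  rw [h3]
  exact h1

/-- **One null set for all number fields and all integral bases.** -/
theorem one_set {A : Type} [Countable A] (I : A → Type) [∀ i, Finite (I i)]
    (Ob : ∀ (i : A) (p : ℕ) [Fact p.Prime], (ZMod p)[X] → Set (I i → ZMod p))
    (v : ℕ → ℕ → ℤ) :
    ∃ E : Set ℕ, Null E ∧ ∀ (k : Type) [Field k] [NumberField k] (r : ℕ)
      (B : Module.Basis (Fin r) ℤ (𝓞 k)) (f : (𝓞 k)[X]) (i : A) (e : I i × Fin r → ℕ),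
      Null (Bad B f (fun m q => v m (e q)) (fun p _ => Ob i p)) →
      (Bad B f (fun m q => v m (e q)) (fun p _ => Ob i p) \ E).Finite := by
  let X : Type := Σ (i : A) (r : ℕ), (I i × Fin r → ℕ) × Tab r × (Σ d : ℕ, (Fin d → Fin r → ℤ))
  have hX : Countable X := by
    show Countable (Σ (i : A) (r : ℕ), (I i × Fin r → ℕ) × Tab r ×
      (Σ d : ℕ, (Fin d → Fin r → ℤ)))
    infer_instance
  let P : X → Set ℕ → Prop := fun z Y => Null Y ∧ ∃ (k : Type) (_ : Field k) (_ : NumberField k)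
    (B : Module.Basis (Fin z.2.1) ℤ (𝓞 k)), tab B = z.2.2.2.1 ∧
      Y = Bad B (pf B z.2.2.2.2) (fun m q => v m (z.2.2.1 q)) (fun p _ => Ob z.1 p)
  let Z : X → Set ℕ := fun z => if h : ∃ Y, P z Y then h.choose else ∅
  have hZ : ∀ z, Null (Z z) := by
    intro z
    by_cases h : ∃ Y, P z Y
    · show Null (if h : ∃ Y, P z Y then h.choose else ∅)
      rw [dif_pos h]
      exact h.choose_spec.1
    · show Null (if h : ∃ Y, P z Y then h.choose else ∅)
      rw [dif_neg h]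
      exact null_empty
  obtain ⟨E, hE, hfin⟩ := diagC Z hZ
  refine ⟨E, hE, ?_⟩
  intro k _ _ r B f i e hnull
  obtain ⟨y, rfl⟩ := exists_pf B f
  let z : X := ⟨i, r, e, tab B, y⟩
  have h : ∃ Y, P z Y := ⟨_, hnull, k, inferInstance, inferInstance, B, rfl, rfl⟩
  refine (hfin z).subset (Set.diff_subset_diff_left ?_)
  show _ ⊆ (if h : ∃ Y, P z Y then h.choose else ∅)
  rw [dif_pos h]
  obtain ⟨-, k₀, _, _, B₀, ht, hY⟩ := h.choose_spec
  rw [hY]
  exact bad_sub B B₀ ht.symm y _ _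

end Pool.Agent.N323.TH
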