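import Pool.Agent.R431.SG.MainS
import Pool.Agent.R431.SG.ModelL
import Pool.Agent.R431.SG.CstL
import Pool.Agent.R431.SG.Cnt2
import Pool.Agent.N323.TH.Tab

/-!
# The local criteria of `Pool.Agent.R431.SG`, in the form which is used for thin sequences

The proofs are the second parts of the proofs of `curves_main`, `star_main` and `twists_mainL`
(`Pool.Agent.R431.SG.TwistL` cannot be imported together with `MainS`, therefore `xp` and `all_obsT`
are copied from there).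
-/

set_option autoImplicit false
set_option linter.all false

open scoped Classical

namespace Pool.Agent.N323.TH

open Polynomial NumberField IsDedekindDomain Pool.Agent.Y713 Pool.Agent.R431.SG

/-- a member of the first family with all obstructions -/
theorem curves_end {k : Type} [Field k] [NumberField k] {ℓ : ℕ} (hℓ : ℓ.Prime) {ζ : k}
    (hζ : IsPrimitiveRoot ζ ℓ) {N : ℕ} (hN : ¬ ℓ ∣ N) {m : ℕ} (hm : 2 ≤ m)
    (c : Fin (N + 1) × Fin (m + 3) → 𝓞 k)
    (hall : ∀ S : Option (Option ((Fin N × Fin N) ⊕ (Fin N × Fin N → Fin ℓ))),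
      ∃ (p : ℕ) (_ : Fact p.Prime) (σ : 𝓞 k →+* ℤ_[p]),
        (fun q => red σ (c q)) ∈ ObsL ℓ N m S p) :
    Jac.ShaPrimaryTrivial ℓ (C (algebraMap k[X] (RatFunc k)
      (gp (fun q => algebraMap (𝓞 k) k (c q)) 0)) * ∏ i : Fin N, (X - C (algebraMap k[X]
        (RatFunc k) (gp (fun q => algebraMap (𝓞 k) k (c q)) i.succ)))) k[X] := by
  -- irreducibility of a difference or of the first polynomial
  have hred : ∀ (d : Fin (m + 3) → 𝓞 k) (p : ℕ) [Fact p.Prime] (σ : 𝓞 k →+* ℤ_[p]),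
      (pol fun j => red σ (d j)).natDegree = m + 2 → Irreducible (pol fun j => red σ (d j)) →
      Irreducible (pol fun j => algebraMap (𝓞 k) k (d j)) ∧
        (pol fun j => algebraMap (𝓞 k) k (d j)).natDegree = m + 2 := by
    intro d p _ σ h1 h2
    refine ⟨irr_of_red σ (by omega) d h1 h2, le_antisymm (pol_degree _) ?_⟩
    have h3 : ((pol fun j => d j).map (red σ)).natDegree = m + 2 := by
      rw [pol_map]; exact h1
    have h4 : ((pol fun j => d j).map (red σ)).natDegree ≤ (pol fun j => d j).natDegree :=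
      natDegree_map_le
    have h5 : (pol fun j => algebraMap (𝓞 k) k (d j)) =
        (pol fun j => d j).map (algebraMap (𝓞 k) k) := by rw [pol_map]
    rw [h5, natDegree_map_eq_of_injective (FaithfulSMul.algebraMap_injective _ _)]
    omega
  obtain ⟨p, hp, σ, hirr⟩ := hall none
  obtain ⟨hD, hDd⟩ := hred (fun j => c (0, j)) p σ hirr.1 hirr.2
  refine Pool.Agent.R431.SG.all_obsL hℓ hζ hN c hD ?_ ?_ ?_
  · intro b hb
    obtain ⟨p, hp, σ, r, g, hg1, hg2, hg3⟩ := hall (some none)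
    have h3 : (pol fun j => σ (c (0, j))).map (PadicInt.toZMod (p := p)) = (X - C r) * g := by
      rw [pol_map]
      exact hg1
    obtain ⟨ρ, G, hG1, hG2, hG3⟩ := fac_padic (f := pol fun j => σ (c (0, j))) (m := m + 1)
      (pol_degree _) r g hg3 hg2 (by omega) h3
    refine const_of_facL hℓ (ext σ) (hζ.map_of_injective (ext σ).injective) hDd (by omega) hG1
      hG2 (ρ := ρ) ?_ hb
    rw [← hG3, pol_map, pol_map]
    congr 1
    funext j
    exact ext_alg σ (c (0, j))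
  · intro i j hij
    obtain ⟨p, hp, σ, hq⟩ := hall (some (some (Sum.inl (i, j))))
    obtain ⟨h1, h2⟩ := hq hij
    have h3 : ∀ t, red σ (c (i.succ, t) - c (j.succ, t)) =
        red σ (c (i.succ, t)) - red σ (c (j.succ, t)) := fun t => map_sub _ _ _
    have h4 := hred (fun t => c (i.succ, t) - c (j.succ, t)) p σ (by
      simp only [h3]; exact h1) (by simp only [h3]; exact h2)
    have h5 : gp (fun q => algebraMap (𝓞 k) k (c q)) i.succ -
        gp (fun q => algebraMap (𝓞 k) k (c q)) j.succ =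
        pol fun t => algebraMap (𝓞 k) k (c (i.succ, t) - c (j.succ, t)) := by
      unfold gp
      rw [pol_sub]
      simp only [map_sub]
    rw [h5]
    exact h4.1
  · intro s h1 h2 h3
    obtain ⟨p, hp, σ, ho⟩ := hall (some (some (Sum.inr fun q => ⟨s q, h1 q⟩)))
    exact ⟨p, hp, σ, ho ⟨h2, h3⟩⟩

/-- a member of the second family with all obstructions -/
theorem monic_end {k : Type} [Field k] [NumberField k] {ℓ : ℕ} (hℓ : ℓ.Prime) {ζ : k}
    (hζ : IsPrimitiveRoot ζ ℓ) {M : ℕ} (hM : 2 ≤ M) (hN : ¬ ℓ ∣ M + 1) {m : ℕ} (hm : 2 ≤ m)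
    (c : Fin (M + 1) × Fin (m + 3) → 𝓞 k)
    (hall : ∀ (i : Fin M) (S : Option (Option ((Fin M × Fin M) ⊕ (Fin M × Fin M → Fin ℓ)))),
      ∃ (p : ℕ) (_ : Fact p.Prime) (σ : 𝓞 k →+* ℤ_[p]),
        trn i (fun q => red σ (c q)) ∈ ObsL ℓ M m S p) (δ : k) (hδne : δ ≠ 0) :
    Jac.ShaPrimaryTrivial ℓ (C (algebraMap k[X] (RatFunc k) (C δ)) *
          ∏ i : Fin (M + 1), (X - C (algebraMap k[X]
            (RatFunc k) (gp (fun q => algebraMap (𝓞 k) k (c q)) i)))) k[X] := by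
  have hdata : ∀ i : Fin M, _ := fun i => tuple_data (ζ := ζ) hℓ hζ (N := M) (m := m) (by omega)
    (trn i c) (by
      intro S
      obtain ⟨p, hp, σ, ho⟩ := hall i S
      refine ⟨p, hp, σ, ?_⟩
      rw [trn_map]
      exact ho)
  have i0 : Fin M := ⟨0, by omega⟩
  have hmap : ∀ i : Fin M, (fun q => algebraMap (𝓞 k) k (trn i c q)) =
      trn i fun q => algebraMap (𝓞 k) k (c q) := fun i => trn_map _ i c
  have hg0 : ∀ i : Fin M, gp (fun q => algebraMap (𝓞 k) k (trn i c q)) 0 =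
      gp (fun q => algebraMap (𝓞 k) k (c q)) 0 -
        gp (fun q => algebraMap (𝓞 k) k (c q)) i.succ := by
    intro i
    rw [hmap, gp_trn_zero]
  have hgs : ∀ i j : Fin M, gp (fun q => algebraMap (𝓞 k) k (trn i c q)) j.succ =
      gp (fun q => algebraMap (𝓞 k) k (c q)) j.succ := by
    intro i j
    rw [hmap, gp_trn_succ]
  simp only [hg0, hgs] at hdata
  obtain ⟨T, hT, hbad, hTD⟩ := obs_data hℓ
    (fun i : Fin M => gp (fun q => algebraMap (𝓞 k) k (c q)) i.succ) (hdata i0).2.2.1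
  have hall2 := fun i : Fin M => hTD _ (hdata i).1 (hdata i).2.2.2
  have hcons : (fun i => gp (fun q => algebraMap (𝓞 k) k (c q)) i) =
      (Fin.cons (gp (fun q => algebraMap (𝓞 k) k (c q)) 0)
        (fun i : Fin M => gp (fun q => algebraMap (𝓞 k) k (c q)) i.succ) :
          Fin (M + 1) → k[X]) := by
    funext i
    rcases Fin.eq_zero_or_eq_succ i with rfl | ⟨j, rfl⟩
    · rfl
    · rfl
  have hcons' : ∀ i, gp (fun q => algebraMap (𝓞 k) k (c q)) i =
      (Fin.cons (gp (fun q => algebraMap (𝓞 k) k (c q)) 0)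
        (fun i : Fin M => gp (fun q => algebraMap (𝓞 k) k (c q)) i.succ) :
          Fin (M + 1) → k[X]) i := fun i => congrFun hcons i
  have hprod : ∏ i : Fin (M + 1), (X - C (algebraMap k[X] (RatFunc k)
      (gp (fun q => algebraMap (𝓞 k) k (c q)) i))) =
      ∏ i : Fin (M + 1), (X - C (algebraMap k[X] (RatFunc k)
        ((Fin.cons (gp (fun q => algebraMap (𝓞 k) k (c q)) 0)
        (fun i : Fin M => gp (fun q => algebraMap (𝓞 k) k (c q)) i.succ) :
          Fin (M + 1) → k[X]) i))) :=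
    Finset.prod_congr rfl fun i _ => by rw [← hcons' i]
  rw [hprod]
  exact star_crit (RatFunc k) hℓ (by exact_mod_cast hℓ.ne_zero) hζ hM hN T hT hbad
    (fun i => (hdata i).1) (fun i => (hdata i).2.1) (fun i => (hall2 i).1)
    (fun i => (hall2 i).2.1) (fun i => (hall2 i).2.2) hδne

/-- the exponents of an index -/
noncomputable def xp {k : Type} [Field k] {T : Finset k[X]} {ℓ : ℕ}
    (a : {π // π ∈ T} → Fin ℓ) (π : k[X]) : ℕ :=
  if h : π ∈ T then (a ⟨π, h⟩ : ℕ) else 0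

theorem all_obsT {k : Type} [Field k] [NumberField k] {T : Finset k[X]} {ℓ : ℕ}
    (hℓ : ℓ.Prime) {N : ℕ}
    {c : Fin N → 𝓞 k} (hD : Irreducible (pol fun j => algebraMap (𝓞 k) k (c j)))
    (f : (k[X] → ℕ) → (𝓞 k)[X]) (e : (k[X] → ℕ) → k) (he : ∀ s, e s ≠ 0)
    (hf : ∀ s, (f s).map (algebraMap (𝓞 k) k) = C (e s) * ∏ π ∈ T, π ^ s π)
    (hobs : ∀ a : {π // π ∈ T} → Fin ℓ, (∃ π ∈ T, xp a π ≠ 0) →
      ∃ (p : ℕ) (h : Fact p.Prime) (σ : 𝓞 k →+* ℤ_[p]),
        PObs ℓ ((f (xp a)).map (red σ)) (fun j => red σ (c j))) :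
    (∀ π ∈ T, ¬ (pol fun j => algebraMap (𝓞 k) k (c j)) ∣ π) ∧
      ∀ (b : k) (a : k[X] → ℕ) (z : k[X]), b ≠ 0 →
        (pol fun j => algebraMap (𝓞 k) k (c j)) ∣ C b * ∏ π ∈ T, π ^ a π - z ^ ℓ →
        ∀ π ∈ T, ℓ ∣ a π := by
  -- the general principle
  have main : ∀ (s : k[X] → ℕ), (∀ π, s π < ℓ) → (∃ π ∈ T, s π ≠ 0) → ∀ (b : k) (W z : k[X]),
      b ≠ 0 → IsCoprime (pol fun j => algebraMap (𝓞 k) k (c j)) W →
      ¬ (pol fun j => algebraMap (𝓞 k) k (c j)) ∣ C b * ((∏ π ∈ T, π ^ s π) * W ^ ℓ) - z ^ ℓ := by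
    intro s hs hne b W z hb hW hd
    set a : {π // π ∈ T} → Fin ℓ := fun π => ⟨s π, hs π⟩ with ha
    have hx : ∀ π ∈ T, xp a π = s π := by
      intro π hπ
      unfold xp
      rw [dif_pos hπ]
    obtain ⟨π1, hπ1, hne1⟩ := hne
    obtain ⟨p, hp, σ, ho⟩ := hobs a ⟨π1, hπ1, by rw [hx π1 hπ1]; exact hne1⟩
    refine pair_contraL hℓ.ne_zero σ ho (W := W) (z := z) (a := b / e (xp a))
      (div_ne_zero hb (he _)) hW ?_
    have h1 : C (b / e (xp a)) * ((f (xp a)).map (algebraMap (𝓞 k) k) * W ^ ℓ) =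
        C b * ((∏ π ∈ T, π ^ s π) * W ^ ℓ) := by
      rw [hf, Finset.prod_congr rfl fun π hπ => by rw [hx π hπ]]
      have h2 : C (b / e (xp a)) * C (e (xp a)) = C b := by
        rw [← C_mul, div_mul_cancel₀ _ (he _)]
      rw [← h2]
      ring
    rw [h1]
    exact hd
  have h1 : ∀ π ∈ T, ¬ (pol fun j => algebraMap (𝓞 k) k (c j)) ∣ π := by
    intro π hπ hd
    refine main (fun π' => if π' = π then 1 else 0) ?_ ⟨π, hπ, by simp⟩ 1 1 0 one_ne_zero
      isCoprime_one_right ?_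
    · intro π'
      have := hℓ.two_le
      split_ifs <;> omega
    · have h2 : ∏ π' ∈ T, π' ^ (if π' = π then 1 else 0) = π := by
        rw [Finset.prod_eq_single π]
        · simp
        · intro π' _ h
          simp [h]
        · intro h
          exact absurd hπ h
      rw [h2, C_1, one_mul, one_pow, mul_one, zero_pow hℓ.ne_zero, sub_zero]
      exact hd
  refine ⟨h1, ?_⟩
  intro b a z hb hdvd
  by_contra hcon
  push Not at hcon
  obtain ⟨π0, hπ0, hna⟩ := hcon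
  refine main (fun π => a π % ℓ) (fun π => Nat.mod_lt _ hℓ.pos)
    ⟨π0, hπ0, fun h => hna (Nat.dvd_of_mod_eq_zero h)⟩ b (∏ π ∈ T, π ^ (a π / ℓ)) z hb ?_ ?_
  · refine IsCoprime.prod_right fun π hπ => IsCoprime.pow_right ?_
    exact (hD.coprime_iff_not_dvd).2 (h1 π hπ)
  · have h2 : (∏ π ∈ T, π ^ (a π % ℓ)) * (∏ π ∈ T, π ^ (a π / ℓ)) ^ ℓ =
        ∏ π ∈ T, π ^ a π := by
      rw [← Finset.prod_pow, ← Finset.prod_mul_distrib]
      refine Finset.prod_congr rfl fun π _ => ?_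
      rw [← pow_mul, ← pow_add]
      congr 1
      rw [mul_comm (a π / ℓ)]
      exact Nat.mod_add_div _ _
    rw [h2]
    exact hdvd

/-- the twists: finitely many obstructions, which come from polynomials `f` with good reductions -/
theorem twists_end {k : Type} [Field k] [NumberField k] {ℓ : ℕ} (hℓ : ℓ.Prime) {ζ : k}
    (hζ : IsPrimitiveRoot ζ ℓ) {F : (RatFunc k)[X]} (hs : F.Splits) (hsep : F.Separable)
    (hdeg : ¬ ℓ ∣ F.natDegree) :
    ∃ (s : Finset (𝓞 k)[X]),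
      (∀ f ∈ s, ∃ (k' : Type) (_ : Field k') (_ : NumberField k') (ι : 𝓞 k →+* 𝓞 k') (p0 : ℕ),
        ∀ (p : ℕ) [Fact p.Prime] (σ : 𝓞 k' →+* ℤ_[p]), p0 ≤ p →
          1 ≤ (f.map (red (σ.comp ι))).natDegree ∧
            Pool.Agent.H435R3.Weil.Cop ℓ (f.map (red (σ.comp ι)))) ∧
      ∀ (m : ℕ), (m + 2 = 2 → ℓ ≠ 2) → ∀ c : Fin (m + 3) → 𝓞 k,
        (∃ (p : ℕ) (_ : Fact p.Prime) (σ : 𝓞 k →+* ℤ_[p]),
          (pol fun j => red σ (c j)).natDegree = m + 2 ∧
            Irreducible (pol fun j => red σ (c j))) →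
        (1 ≤ m → ∃ (p : ℕ) (_ : Fact p.Prime) (σ : 𝓞 k →+* ℤ_[p]) (r : ZMod p)
          (g : (ZMod p)[X]),
          (pol fun j => red σ (c j)) = (X - C r) * g ∧ g.natDegree = m + 1 ∧ Irreducible g) →
        (∀ f ∈ s, ∃ (p : ℕ) (_ : Fact p.Prime) (σ : 𝓞 k →+* ℤ_[p]),
          PObs ℓ (f.map (red σ)) (fun j => red σ (c j))) →
        Jac.ShaPrimaryTrivial ℓ (C (algebraMap k[X] (RatFunc k)
          (pol fun j => algebraMap (𝓞 k) k (c j))) * F) k[X] := by
  obtain ⟨ζ', hζ'⟩ : ∃ ζ' : 𝓞 k, IsPrimitiveRoot ζ' ℓ := by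
    have hint : IsIntegral ℤ ζ := hζ.isIntegral hℓ.pos
    refine ⟨⟨ζ, hint⟩, ?_⟩
    refine IsPrimitiveRoot.of_map_of_injective (f := algebraMap (𝓞 k) k) ?_
      (FaithfulSMul.algebraMap_injective _ _)
    exact hζ
  obtain ⟨T, hT, hcrit⟩ := twist_crit (RatFunc k) hℓ
    (by exact_mod_cast hℓ.ne_zero) hζ hs hsep hdeg
  -- the models
  have hinj : Function.Injective (algebraMap (𝓞 k) k) := FaithfulSMul.algebraMap_injective _ _
  have hmod : ∀ s : k[X] → ℕ, ∃ (f : (𝓞 k)[X]) (e : k), e ≠ 0 ∧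
      f.map (algebraMap (𝓞 k) k) = C e * ∏ π ∈ T, π ^ s π ∧
      ((∃ π0 ∈ T, Nat.Coprime (s π0) ℓ) →
      ∃ (k' : Type) (_ : Field k') (_ : NumberField k') (ι : 𝓞 k →+* 𝓞 k') (p0 : ℕ),
        ∀ (p : ℕ) [Fact p.Prime] (σ : 𝓞 k' →+* ℤ_[p]), p0 ≤ p →
          1 ≤ (f.map (red (σ.comp ι))).natDegree ∧
            Pool.Agent.H435R3.Weil.Cop ℓ (f.map (red (σ.comp ι)))) := by
    intro s
    by_cases hex : ∃ π0 ∈ T, Nat.Coprime (s π0) ℓ
    · obtain ⟨π0, hπ0, hco⟩ := hex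
      obtain ⟨f, e, he, hf, hk⟩ := model hT hℓ s hπ0 hco
      exact ⟨f, e, he, hf, fun _ => hk⟩
    · obtain ⟨f, d, hd, hf⟩ := clear (∏ π ∈ T, π ^ s π)
      refine ⟨f, algebraMap (𝓞 k) k d, ?_, hf, fun h => absurd h hex⟩
      rw [Ne, map_eq_zero_iff _ hinj]
      exact hd
  choose f e he hf hk using hmod
  refine ⟨((Finset.univ : Finset ({π // π ∈ T} → Fin ℓ)).filter
    (fun a => ∃ π ∈ T, xp a π ≠ 0)).image (fun a => f (xp a)), ?_, ?_⟩
  · intro g hg
    obtain ⟨a, ha, rfl⟩ := Finset.mem_image.1 hg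
    obtain ⟨π0, hπ0, hne⟩ := (Finset.mem_filter.1 ha).2
    have hlt : xp a π0 < ℓ := by
      unfold xp
      rw [dif_pos hπ0]
      exact (a ⟨π0, hπ0⟩).2
    have hco : Nat.Coprime (xp a π0) ℓ := by
      rw [Nat.coprime_comm, hℓ.coprime_iff_not_dvd]
      exact Nat.not_dvd_of_pos_of_lt (Nat.pos_of_ne_zero hne) hlt
    exact hk (xp a) ⟨π0, hπ0, hco⟩
  intro m hn3 c hA hB hobs
  obtain ⟨p, hp, σ, hirr⟩ := hA
  have hD : Irreducible (pol fun j => algebraMap (𝓞 k) k (c j)) :=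
    irr_of_red σ (by omega) c hirr.1 hirr.2
  have hDd : (pol fun j => algebraMap (𝓞 k) k (c j)).natDegree = m + 2 := by
    refine le_antisymm (pol_degree _) ?_
    have h1 : ((pol fun j => c j).map (red σ)).natDegree = m + 2 := by
      rw [pol_map]; exact hirr.1
    have h2 : ((pol fun j => c j).map (red σ)).natDegree ≤ (pol fun j => c j).natDegree :=
      natDegree_map_le
    have h3 : (pol fun j => algebraMap (𝓞 k) k (c j)) =
        (pol fun j => c j).map (algebraMap (𝓞 k) k) := by rw [pol_map]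
    rw [h3, natDegree_map_eq_of_injective (FaithfulSMul.algebraMap_injective _ _)]
    omega
  obtain ⟨h1, h2⟩ := all_obsT (T := T) hℓ hD f e he hf (by
    intro a hne
    exact hobs _ (Finset.mem_image.2 ⟨a, Finset.mem_filter.2 ⟨Finset.mem_univ _, hne⟩, rfl⟩))
  refine hcrit _ hD ?_ h1 h2
  intro b hb
  by_cases hm2 : 1 ≤ m
  swap
  · refine SE.const_stable hℓ hD ?_ hb
    rw [hDd]
    intro hd
    have e1 : m + 2 = 2 := by omega
    rw [e1] at hd
    exact hn3 e1 ((Nat.prime_dvd_prime_iff_eq hℓ Nat.prime_two).1 hd)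
  obtain ⟨p, hp, σ, r, g, hg1, hg2, hg3⟩ := hB hm2
  have h3 : (pol fun j => σ (c j)).map (PadicInt.toZMod (p := p)) = (X - C r) * g := by
    rw [pol_map]
    exact hg1
  obtain ⟨ρ, G, hG1, hG2, hG3⟩ := fac_padic (f := pol fun j => σ (c j)) (m := m + 1)
    (pol_degree _) r g hg3 hg2 (by omega) h3
  refine const_of_facL hℓ (ext σ) (hζ.map_of_injective (ext σ).injective) hDd (by omega) hG1
    hG2 (ρ := ρ) ?_ hb
  rw [← hG3, pol_map, pol_map]
  congr 1
  funext j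
  exact ext_alg σ (c j)

end Pool.Agent.N323.TH
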