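import Pool.Agent.N323.TH.Ends

/-!
# The Selmer group conjecture along thin sequences
-/

set_option autoImplicit false
set_option linter.all false

open scoped Classical

namespace Pool.Agent.N323.TH

open Polynomial NumberField IsDedekindDomain Pool.Agent.Y713 Pool.Agent.R431.SG
open Pool.Agent.N666.TM (NullIn fl)

/-- the integer part of the value of a generalised polynomial -/
noncomputable def vl (F : ℕ → Finset ℝ) (a : ℕ → ℝ → ℝ) (m l : ℕ) : ℤ :=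
  ⌊∑ x ∈ F l, a l x * (m : ℝ) ^ x⌋

section

variable {F : ℕ → Finset ℝ} {a : ℕ → ℝ → ℝ} {c : ℕ → ℝ}
  (h : ∀ l, c l ∈ F l ∧ (∀ x ∈ F l, x ≤ c l) ∧ 0 < c l ∧ (∀ m : ℕ, c l ≠ m) ∧ 0 < a l (c l))
  (hc : Function.Injective c)

include h hc

theorem bad_null {k : Type} [Field k] [NumberField k] {r : ℕ}
    (B : Module.Basis (Fin r) ℤ (𝓞 k)) (f : (𝓞 k)[X]) {I : Type} [Fintype I] [Nonempty I]
    (e : I × Fin r → ℕ) (he : Function.Injective e)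
    {k' : Type} [Field k'] [NumberField k'] (ι : 𝓞 k →+* 𝓞 k') {δ : ℝ} (hδ0 : 0 < δ) (p0 : ℕ)
    (Ob : ∀ (p : ℕ) [Fact p.Prime], (ZMod p)[X] → Set (I → ZMod p))
    (hob : ∀ (p : ℕ) [Fact p.Prime] (σ : 𝓞 k' →+* ℤ_[p]), p0 ≤ p →
      δ * (p : ℝ) ^ Fintype.card I ≤ ((Ob p (f.map (red (σ.comp ι)))).ncard : ℝ)) :
    Null (Bad B f (fun m q => vl F a m (e q)) Ob) := by
  refine (dens_null B (F := fun q => F (e q)) (a := fun q => a (e q)) (c := fun q => c (e q))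
    (fun q => h (e q)) (hc.comp he) ι hδ0 p0
    (fun p _ σ => Ob p (f.map (red (σ.comp ι)))) hob).mono ?_
  intro m hm p _ σ hp
  exact hm p (σ.comp ι)

theorem bad_null' {k : Type} [Field k] [NumberField k] {r : ℕ}
    (B : Module.Basis (Fin r) ℤ (𝓞 k)) {I : Type} [Fintype I] [Nonempty I]
    (e : I × Fin r → ℕ) (he : Function.Injective e) {δ : ℝ} (hδ0 : 0 < δ) (p0 : ℕ)
    (Ob : ∀ (p : ℕ) [Fact p.Prime], (ZMod p)[X] → Set (I → ZMod p))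
    (hob : ∀ (p : ℕ) [Fact p.Prime] (σ : 𝓞 k →+* ℤ_[p]), p0 ≤ p →
      δ * (p : ℝ) ^ Fintype.card I ≤ ((Ob p 0).ncard : ℝ)) :
    Null (Bad B 0 (fun m q => vl F a m (e q)) Ob) := by
  refine bad_null h hc B 0 e he (RingHom.id (𝓞 k)) hδ0 p0 Ob ?_
  intro p _ σ hp
  rw [Polynomial.map_zero]
  exact hob p σ hp

/-- **One null set for the first family.** -/
theorem curves_thin : ∃ E : Set ℕ, Null E ∧ ∀ (k : Type) [Field k] [NumberField k] (r : ℕ)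
    (B : Module.Basis (Fin r) ℤ (𝓞 k)) (ℓ : ℕ) (_ : ℓ.Prime) (ζ : k) (_ : IsPrimitiveRoot ζ ℓ)
    (N n : ℕ) (_ : ¬ ℓ ∣ N) (_ : 4 ≤ n) (e : (Fin (N + 1) × Fin (n + 1)) × Fin r → ℕ)
    (_ : Function.Injective e),
    {m : ℕ | m ∉ E ∧ ¬ Jac.ShaPrimaryTrivial ℓ (C (algebraMap k[X] (RatFunc k)
      (gp (fun q => algebraMap (𝓞 k) k (cv B (fun q => vl F a m (e q)) q)) 0)) *
      ∏ i : Fin N, (X - C (algebraMap k[X] (RatFunc k)
        (gp (fun q => algebraMap (𝓞 k) k (cv B (fun q => vl F a m (e q)) q)) i.succ))))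
          k[X]}.Finite := by
  obtain ⟨E, hE, hfin⟩ := one_set
    (A := Σ (ℓ N m : ℕ), Option (Option ((Fin N × Fin N) ⊕ (Fin N × Fin N → Fin ℓ))))
    (fun i => Fin (i.2.1 + 1) × Fin (i.2.2.1 + 3))
    (fun i p _ _ => ObsL i.1 i.2.1 i.2.2.1 i.2.2.2 p) (vl F a)
  refine ⟨E, hE, ?_⟩
  intro k _ _ r B ℓ hℓ ζ hζ N n hN hn e he
  obtain ⟨m, rfl⟩ : ∃ m, n = m + 2 := ⟨n - 2, by omega⟩
  obtain ⟨ζ', hζ'⟩ : ∃ ζ' : 𝓞 k, IsPrimitiveRoot ζ' ℓ := by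
    have hint : IsIntegral ℤ ζ := hζ.isIntegral hℓ.pos
    refine ⟨⟨ζ, hint⟩, ?_⟩
    refine IsPrimitiveRoot.of_map_of_injective (f := algebraMap (𝓞 k) k) ?_
      (FaithfulSMul.algebraMap_injective _ _)
    exact hζ
  have hS : ∀ S : Option (Option ((Fin N × Fin N) ⊕ (Fin N × Fin N → Fin ℓ))),
      (Bad B 0 (fun m q => vl F a m (e q)) (fun p _ _ => ObsL ℓ N m S p) \ E).Finite := by
    intro S
    refine hfin k r B 0 ⟨ℓ, N, m, S⟩ e ?_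
    exact bad_null' h hc B e he (δ := 1 / (2048 * ((m + 2 : ℕ) : ℝ) ^ 2)) (by positivity)
      (1600 + (4 * N + 6) + 2 * (N * N) + ℓ + 1) (fun p _ _ => ObsL ℓ N m S p)
      (fun p _ σ hp => card_ObsL hℓ hζ' (by omega) S p σ hp)
  refine (Set.finite_iUnion hS).subset ?_
  rintro t ⟨htE, hnot⟩
  by_contra hcon
  apply hnot
  refine curves_end hℓ hζ hN (by omega) _ ?_
  intro S
  by_contra hno
  apply hcon
  rw [Set.mem_iUnion]
  refine ⟨S, ?_, htE⟩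
  intro p _ σ hmem
  exact hno ⟨p, _, σ, hmem⟩

/-- **One null set for the second family.** -/
theorem monic_thin : ∃ E : Set ℕ, Null E ∧ ∀ (k : Type) [Field k] [NumberField k] (r : ℕ)
    (B : Module.Basis (Fin r) ℤ (𝓞 k)) (ℓ : ℕ) (_ : ℓ.Prime) (ζ : k) (_ : IsPrimitiveRoot ζ ℓ)
    (N n : ℕ) (_ : 2 ≤ N) (_ : ¬ ℓ ∣ N + 1) (_ : 4 ≤ n)
    (e : (Fin (N + 1) × Fin (n + 1)) × Fin r → ℕ) (_ : Function.Injective e),
    {m : ℕ | m ∉ E ∧ ¬ ∀ δ : k, δ ≠ 0 → Jac.ShaPrimaryTrivial ℓ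
      (C (algebraMap k[X] (RatFunc k) (C δ)) *
      ∏ i : Fin (N + 1), (X - C (algebraMap k[X] (RatFunc k)
        (gp (fun q => algebraMap (𝓞 k) k (cv B (fun q => vl F a m (e q)) q)) i))))
          k[X]}.Finite := by
  obtain ⟨E, hE, hfin⟩ := one_set
    (A := Σ (ℓ N m : ℕ), Fin N × Option (Option ((Fin N × Fin N) ⊕ (Fin N × Fin N → Fin ℓ))))
    (fun i => Fin (i.2.1 + 1) × Fin (i.2.2.1 + 3))
    (fun i p _ _ => {c | trn i.2.2.2.1 c ∈ ObsL i.1 i.2.1 i.2.2.1 i.2.2.2.2 p}) (vl F a)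
  refine ⟨E, hE, ?_⟩
  intro k _ _ r B ℓ hℓ ζ hζ N n hN2 hN hn e he
  obtain ⟨m, rfl⟩ : ∃ m, n = m + 2 := ⟨n - 2, by omega⟩
  obtain ⟨ζ', hζ'⟩ : ∃ ζ' : 𝓞 k, IsPrimitiveRoot ζ' ℓ := by
    have hint : IsIntegral ℤ ζ := hζ.isIntegral hℓ.pos
    refine ⟨⟨ζ, hint⟩, ?_⟩
    refine IsPrimitiveRoot.of_map_of_injective (f := algebraMap (𝓞 k) k) ?_
      (FaithfulSMul.algebraMap_injective _ _)
    exact hζ
  have hS : ∀ S : Fin N × Option (Option ((Fin N × Fin N) ⊕ (Fin N × Fin N → Fin ℓ))),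
      (Bad B 0 (fun m q => vl F a m (e q)) (fun p _ _ => {c | trn S.1 c ∈ ObsL ℓ N m S.2 p})
        \ E).Finite := by
    intro S
    refine hfin k r B 0 ⟨ℓ, N, m, S⟩ e ?_
    refine bad_null' h hc B e he (δ := 1 / (2048 * ((m + 2 : ℕ) : ℝ) ^ 2)) (by positivity)
      (1600 + (4 * N + 6) + 2 * (N * N) + ℓ + 1)
      (fun p _ _ => {c | trn S.1 c ∈ ObsL ℓ N m S.2 p}) ?_
    intro p _ σ hp
    rw [card_trn]
    exact card_ObsL hℓ hζ' (by omega) S.2 p σ hp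
  refine (Set.finite_iUnion hS).subset ?_
  rintro t ⟨htE, hnot⟩
  by_contra hcon
  apply hnot
  refine monic_end hℓ hζ hN2 hN (by omega) _ ?_
  intro i S
  by_contra hno
  apply hcon
  rw [Set.mem_iUnion]
  refine ⟨(i, S), ?_, htE⟩
  intro p _ σ hmem
  exact hno ⟨p, _, σ, hmem⟩

/-- the three kinds of obstructions for the twists -/
def ObT (ℓ m : ℕ) (κ : Fin 3) (p : ℕ) [Fact p.Prime] (g : (ZMod p)[X]) :
    Set (Fin (m + 3) → ZMod p) :=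
  if κ = 0 then {c | (pol c).natDegree = m + 2 ∧ Irreducible (pol c)}
  else if κ = 1 then {c | ∃ (r : ZMod p) (g : (ZMod p)[X]), pol c = (X - C r) * g ∧
          g.natDegree = m + 1 ∧ Irreducible g}
  else {c | PObs ℓ g c}

/-- **One null set for the twists.** -/
theorem twists_thin : ∃ E : Set ℕ, Null E ∧ ∀ (k : Type) [Field k] [NumberField k] (r : ℕ)
    (B : Module.Basis (Fin r) ℤ (𝓞 k)) (ℓ : ℕ) (_ : ℓ.Prime) (ζ : k) (_ : IsPrimitiveRoot ζ ℓ)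
    (G : (RatFunc k)[X]) (_ : G.Splits) (_ : G.Separable) (_ : ¬ ℓ ∣ G.natDegree)
    (n : ℕ) (_ : 2 ≤ n) (_ : n = 2 → ℓ ≠ 2) (e : Fin (n + 1) × Fin r → ℕ)
    (_ : Function.Injective e),
    {m : ℕ | m ∉ E ∧ ¬ Jac.ShaPrimaryTrivial ℓ (C (algebraMap k[X] (RatFunc k)
      (pol fun j => algebraMap (𝓞 k) k (cv B (fun q => vl F a m (e q)) j))) * G)
          k[X]}.Finite := by
  obtain ⟨E, hE, hfin⟩ := one_set (A := ℕ × ℕ × Fin 3) (fun i => Fin (i.2.1 + 3))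
    (fun i p _ g => ObT i.1 i.2.1 i.2.2 p g) (vl F a)
  refine ⟨E, hE, ?_⟩
  intro k _ _ r B ℓ hℓ ζ hζ G hs hsep hdeg n hn hn3 e he
  obtain ⟨m, rfl⟩ : ∃ m, n = m + 2 := ⟨n - 2, by omega⟩
  obtain ⟨ζ', hζ'⟩ : ∃ ζ' : 𝓞 k, IsPrimitiveRoot ζ' ℓ := by
    have hint : IsIntegral ℤ ζ := hζ.isIntegral hℓ.pos
    refine ⟨⟨ζ, hint⟩, ?_⟩
    refine IsPrimitiveRoot.of_map_of_injective (f := algebraMap (𝓞 k) k) ?_
      (FaithfulSMul.algebraMap_injective _ _)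
    exact hζ
  obtain ⟨s, hs1, hs2⟩ := twists_end hℓ hζ hs hsep hdeg
  have hδ0 : (0 : ℝ) < 1 / (32 * (m + 2) ^ 2) := by positivity
  have hA : (Bad B 0 (fun m q => vl F a m (e q)) (fun p _ g => ObT ℓ m 0 p g) \ E).Finite := by
    refine hfin k r B 0 ⟨ℓ, m, 0⟩ e ?_
    refine bad_null' h hc B e he hδ0 2 (fun p _ g => ObT ℓ m 0 p g) ?_
    intro p _ σ hp
    rw [Fintype.card_fin]
    have h1 := card_irr2 p (n := m + 2) (by omega)
    refine le_trans ?_ h1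
    exact mul_le_mul_of_nonneg_right (d3 m) (by positivity)
  have hB : (if 1 ≤ m then (Bad B 0 (fun m q => vl F a m (e q)) (fun p _ g => ObT ℓ m 1 p g) \ E)
      else ∅).Finite := by
    split_ifs with hm
    · refine hfin k r B 0 ⟨ℓ, m, 1⟩ e ?_
      refine bad_null' h hc B e he hδ0 2 (fun p _ g => ObT ℓ m 1 p g) ?_
      intro p _ σ hp
      rw [Fintype.card_fin]
      have h1 := card_fac2 p (m := m + 1) (by omega)
      refine le_trans ?_ h1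
      exact mul_le_mul_of_nonneg_right (d2 m) (by positivity)
    · exact Set.finite_empty
  have hC : ∀ f ∈ s, (Bad B f (fun m q => vl F a m (e q)) (fun p _ g => ObT ℓ m 2 p g)
      \ E).Finite := by
    intro f hf
    refine hfin k r B f ⟨ℓ, m, 2⟩ e ?_
    obtain ⟨k', _, _, ι, p0, hk'⟩ := hs1 f hf
    obtain ⟨P0, hP0⟩ := card_PObs hℓ f.natDegree
    refine bad_null h hc B f e he ι hδ0 (p0 + P0 + ℓ + 1) (fun p _ g => ObT ℓ m 2 p g) ?_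
    intro p _ σ hp
    obtain ⟨h1, h2⟩ := hk' p σ (by omega)
    rw [Fintype.card_fin]
    exact hP0 p (by omega) (ell_dvd hℓ hζ' (σ.comp ι) (by omega)) _ h1 natDegree_map_le h2 m
  refine ((hA.union hB).union (Set.Finite.biUnion s.finite_toSet hC)).subset ?_
  rintro t ⟨htE, hnot⟩
  by_contra hcon
  rw [Set.mem_union, Set.mem_union, not_or, not_or] at hcon
  obtain ⟨⟨hA', hB'⟩, hC'⟩ := hcon
  apply hnot
  refine hs2 m hn3 _ ?_ ?_ ?_
  · by_contra hno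
    apply hA'
    refine ⟨?_, htE⟩
    intro p _ σ hmem
    exact hno ⟨p, _, σ, hmem⟩
  · intro hm
    rw [if_pos hm] at hB'
    by_contra hno
    apply hB'
    refine ⟨?_, htE⟩
    intro p _ σ hmem
    obtain ⟨r, g, h1⟩ := hmem
    exact hno ⟨p, _, σ, r, g, h1⟩
  · intro f hf
    by_contra hno
    apply hC'
    rw [Set.mem_iUnion₂]
    refine ⟨f, hf, ?_, htE⟩
    intro p _ σ hmem
    exact hno ⟨p, _, σ, hmem⟩

end

end Pool.Agent.N323.TH
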